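import Pool.Agent.E8helper48.RR.Stm3
import Pool.Agent.E8helper73.RR.Mono

/-!
# RR, piece NAB: solutions which never alternate strictly around the equilibrium
-/

set_option autoImplicit false

namespace Pool.Agent.E8helper40.RR

open Filter Topology RR48
open Pool.Agent.E8helper73.RR (bounds)

/-- the limits of six consecutive terms -/
theorem six {x : ℕ → ℝ} {L K I S c : ℝ} (hb : ∀ n, x n ∈ Set.Icc L K)
    (hup : ∀ ε > 0, ∃ N, ∀ n ≥ N, x n < S + ε) (hlo : ∀ ε > 0, ∃ N, ∀ n ≥ N, I - ε < x n)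
    (hc : ∀ ε > 0, ∀ N, ∃ n ≥ N, |x n - c| < ε) :
    ∃ (v : Fin 6 → ℝ) (φ : ℕ → ℕ), v 5 = c ∧ (∀ i, I ≤ v i ∧ v i ≤ S) ∧
      ∀ i : Fin 6, Tendsto (fun k => x (φ k + (i : ℕ))) atTop (𝓝 (v i)) := by
  have hstep : ∀ k : ℕ, ∃ n, |x (n + 5) - c| < 1 / ((k : ℝ) + 1) ∧
      ∀ i < 6, I - 1 / ((k : ℝ) + 1) < x (n + i) ∧ x (n + i) < S + 1 / ((k : ℝ) + 1) := by
    intro k
    have hε : (0 : ℝ) < 1 / ((k : ℝ) + 1) := by positivity
    obtain ⟨N1, h1⟩ := hup _ hε
    obtain ⟨N2, h2⟩ := hlo _ hε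
    obtain ⟨m, hm, h3⟩ := hc _ hε (N1 + N2 + 5)
    refine ⟨m - 5, ?_, fun i hi => ⟨h2 _ (by omega), h1 _ (by omega)⟩⟩
    rwa [Nat.sub_add_cancel (by omega)]
  choose n hn1 hn2 using hstep
  have hcomp : IsCompact (Set.pi Set.univ (fun _ : Fin 6 => Set.Icc L K)) :=
    isCompact_univ_pi (fun _ => isCompact_Icc)
  obtain ⟨v, -, ψ, hψ, hlim⟩ := hcomp.tendsto_subseq
    (x := fun k => fun i : Fin 6 => x (n k + (i : ℕ))) (fun k i _ => hb _)
  have l : ∀ i : Fin 6, Tendsto (fun k => x (n (ψ k) + (i : ℕ))) atTop (𝓝 (v i)) := fun i =>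
    (tendsto_pi_nhds.1 hlim) i
  have hz : Tendsto (fun k => 1 / (((ψ k : ℕ) : ℝ) + 1)) atTop (𝓝 0) :=
    tendsto_one_div_add_atTop_nhds_zero_nat.comp hψ.tendsto_atTop
  have hlo' : Tendsto (fun k => I - 1 / (((ψ k : ℕ) : ℝ) + 1)) atTop (𝓝 I) := by
    simpa using (tendsto_const_nhds (x := I)).sub hz
  have hup' : Tendsto (fun k => S + 1 / (((ψ k : ℕ) : ℝ) + 1)) atTop (𝓝 S) := by
    simpa using (tendsto_const_nhds (x := S)).add hz
  refine ⟨v, fun k => n (ψ k), ?_, ?_, l⟩
  · have l5 : Tendsto (fun k => x (n (ψ k) + 5)) atTop (𝓝 c) := by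
      rw [tendsto_iff_dist_tendsto_zero]
      refine squeeze_zero (fun k => dist_nonneg) (fun k => ?_) hz
      rw [Real.dist_eq]
      exact (hn1 (ψ k)).le
    exact tendsto_nhds_unique (l 5) l5
  · intro i
    exact ⟨le_of_tendsto_of_tendsto' hlo' (l i) fun k => (hn2 (ψ k) i i.2).1.le,
      le_of_tendsto_of_tendsto' (l i) hup' fun k => (hn2 (ψ k) i i.2).2.le⟩

/-- limit orbits -/
theorem orbit {al A B D z : ℝ} {y : ℕ → ℝ} {L K I S c : ℝ} (hb : ∀ n, y n ∈ Set.Icc L K)
    (hstep : ∀ n, y (n + 3) * (A + B * y (n + 2) + y (n + 1) + D * y n) = al + y (n + 1))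
    (n1 : ∀ n, ¬ (z < y n ∧ y (n + 1) < z ∧ z < y (n + 2)))
    (n2 : ∀ n, ¬ (y n < z ∧ z < y (n + 1) ∧ y (n + 2) < z))
    (hup : ∀ ε > 0, ∃ N, ∀ n ≥ N, y n < S + ε) (hlo : ∀ ε > 0, ∃ N, ∀ n ≥ N, I - ε < y n)
    (hc : ∀ ε > 0, ∀ N, ∃ n ≥ N, |y n - c| < ε) :
    ∃ y0 y1 y2 y3 y4 : ℝ, (I ≤ y0 ∧ y0 ≤ S) ∧ (I ≤ y1 ∧ y1 ≤ S) ∧ (I ≤ y2 ∧ y2 ≤ S) ∧
      (I ≤ y3 ∧ y3 ≤ S) ∧ (I ≤ y4 ∧ y4 ≤ S) ∧
      y3 * (A + B * y2 + y1 + D * y0) = al + y1 ∧
      c * (A + B * y4 + y3 + D * y2) = al + y3 ∧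
      ¬ (z < y1 ∧ y2 < z ∧ z < y3) ∧ ¬ (y1 < z ∧ z < y2 ∧ y3 < z) ∧
      ¬ (z < y3 ∧ y4 < z ∧ z < c) ∧ ¬ (y3 < z ∧ z < y4 ∧ c < z) := by
  obtain ⟨v, φ, hv5, hv, l⟩ := six hb hup hlo hc
  have l0 : Tendsto (fun k => y (φ k)) atTop (𝓝 (v 0)) := l 0
  have l1 : Tendsto (fun k => y (φ k + 1)) atTop (𝓝 (v 1)) := l 1
  have l2 : Tendsto (fun k => y (φ k + 2)) atTop (𝓝 (v 2)) := l 2
  have l3 : Tendsto (fun k => y (φ k + 3)) atTop (𝓝 (v 3)) := l 3
  have l4 : Tendsto (fun k => y (φ k + 4)) atTop (𝓝 (v 4)) := l 4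
  have l5 : Tendsto (fun k => y (φ k + 5)) atTop (𝓝 c) := by rw [← hv5]; exact l 5
  refine ⟨v 0, v 1, v 2, v 3, v 4, hv 0, hv 1, hv 2, hv 3, hv 4, ?_, ?_, ?_, ?_, ?_, ?_⟩
  · have t1 : Tendsto (fun k => y (φ k + 3) * (A + B * y (φ k + 2) + y (φ k + 1) + D * y (φ k)))
        atTop (𝓝 (v 3 * (A + B * v 2 + v 1 + D * v 0))) :=
      l3.mul (((tendsto_const_nhds.add (l2.const_mul B)).add l1).add (l0.const_mul D))
    have t2 : Tendsto (fun k => al + y (φ k + 1)) atTop (𝓝 (al + v 1)) := l1.const_add al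
    refine tendsto_nhds_unique t1 (t2.congr fun k => ?_)
    exact (hstep (φ k)).symm
  · have t1 : Tendsto (fun k => y (φ k + 5) * (A + B * y (φ k + 4) + y (φ k + 3) +
        D * y (φ k + 2))) atTop (𝓝 (c * (A + B * v 4 + v 3 + D * v 2))) :=
      l5.mul (((tendsto_const_nhds.add (l4.const_mul B)).add l3).add (l2.const_mul D))
    have t2 : Tendsto (fun k => al + y (φ k + 3)) atTop (𝓝 (al + v 3)) := l3.const_add al
    refine tendsto_nhds_unique t1 (t2.congr fun k => ?_)
    exact (hstep (φ k + 2)).symm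
  · rintro ⟨a, b, d⟩
    obtain ⟨k, h1, h2, h3⟩ := ((l1.eventually_const_lt a).and
      ((l2.eventually_lt_const b).and (l3.eventually_const_lt d))).exists
    exact n1 (φ k + 1) ⟨h1, h2, h3⟩
  · rintro ⟨a, b, d⟩
    obtain ⟨k, h1, h2, h3⟩ := ((l1.eventually_lt_const a).and
      ((l2.eventually_const_lt b).and (l3.eventually_lt_const d))).exists
    exact n2 (φ k + 1) ⟨h1, h2, h3⟩
  · rintro ⟨a, b, d⟩
    obtain ⟨k, h1, h2, h3⟩ := ((l3.eventually_const_lt a).and
      ((l4.eventually_lt_const b).and (l5.eventually_const_lt d))).exists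
    exact n1 (φ k + 3) ⟨h1, h2, h3⟩
  · rintro ⟨a, b, d⟩
    obtain ⟨k, h1, h2, h3⟩ := ((l3.eventually_lt_const a).and
      ((l4.eventually_const_lt b).and (l5.eventually_lt_const d))).exists
    exact n2 (φ k + 3) ⟨h1, h2, h3⟩

/-- from the proof of MONO: if `I < S` then `al ≤ A + (B + D) I` -/
theorem alg2 {al A B D I S v u w v' u' w' : ℝ} (hA : 0 ≤ A) (hB : 0 ≤ B)
    (hD : 0 < D) (hI : 0 < I) (hlt : I < S)
    (hv : I ≤ v ∧ v ≤ S) (hu : I ≤ u ∧ u ≤ S) (hw : I ≤ w ∧ w ≤ S)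
    (hv' : I ≤ v' ∧ v' ≤ S) (hu' : I ≤ u' ∧ u' ≤ S) (hw' : I ≤ w' ∧ w' ≤ S)
    (h1 : S * (A + B * w + u + D * v) = al + u)
    (h2 : I * (A + B * w' + u' + D * v') = al + u') : al ≤ A + (B + D) * I := by
  have hS : 0 < S := hI.trans hlt
  have h1a : S * (A + (B + D) * I) + (S - 1) * u ≤ al := by
    have e1 : 0 ≤ S * (B * (w - I)) := mul_nonneg hS.le (mul_nonneg hB (by linarith [hw.1]))
    have e2 : 0 ≤ S * (D * (v - I)) := mul_nonneg hS.le (mul_nonneg hD.le (by linarith [hv.1]))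
    linarith [e1, e2, h1]
  have h2a : al ≤ I * (A + (B + D) * S) + (I - 1) * u' := by
    have e1 : 0 ≤ I * (B * (S - w')) := mul_nonneg hI.le (mul_nonneg hB (by linarith [hw'.2]))
    have e2 : 0 ≤ I * (D * (S - v')) := mul_nonneg hI.le (mul_nonneg hD.le (by linarith [hv'.2]))
    linarith [e1, e2, h2]
  rcases le_or_gt S 1 with hS1 | hS1
  · have h1b : (S - 1) * S ≤ (S - 1) * u := by
      have : 0 ≤ (1 - S) * (S - u) := mul_nonneg (by linarith) (by linarith [hu.2])
      linarith [this]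
    have h2b : (I - 1) * u' ≤ (I - 1) * I := by
      have : 0 ≤ (1 - I) * (u' - I) := mul_nonneg (by linarith) (by linarith [hu'.1])
      linarith [this]
    have h3 : (S - I) * (A + S + I - 1) ≤ 0 := by linarith [h1a, h2a, h1b, h2b]
    have h4 : A + S + I ≤ 1 := by
      by_contra hc
      push Not at hc
      have : 0 < (S - I) * (A + S + I - 1) := mul_pos (by linarith) (by linarith)
      linarith
    have hIS0 : 0 < I * S := mul_pos hI hS
    have h5 : al ≤ (B + D - 1) * (I * S) := by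
      have : 0 ≤ I * (1 - A - S - I) := mul_nonneg hI.le (by linarith)
      linarith [this, h2a, h2b]
    have h6 : (B + D) * (I * S) ≤ (B + D) * (I * 1) :=
      mul_le_mul_of_nonneg_left (mul_le_mul_of_nonneg_left hS1 hI.le) (by linarith)
    linarith
  · have h1b : (S - 1) * I ≤ (S - 1) * u := by
      have : 0 ≤ (S - 1) * (u - I) := mul_nonneg (by linarith) (by linarith [hu.1])
      linarith [this]
    rcases le_or_gt I 1 with hI1 | hI1
    · have h2b : (I - 1) * u' ≤ (I - 1) * I := by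
        have : 0 ≤ (1 - I) * (u' - I) := mul_nonneg (by linarith) (by linarith [hu'.1])
        linarith [this]
      have h3 : (S - I) * (A + I) ≤ 0 := by linarith [h1a, h2a, h1b, h2b]
      have : 0 < (S - I) * (A + I) := mul_pos (by linarith) (by linarith)
      linarith
    · have h2b : (I - 1) * u' ≤ (I - 1) * S := by
        have : 0 ≤ (I - 1) * (S - u') := mul_nonneg (by linarith) (by linarith [hu'.2])
        linarith [this]
      have h3 : (S - I) * (A + 1) ≤ 0 := by linarith [h1a, h2a, h1b, h2b]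
      have : 0 < (S - I) * (A + 1) := mul_pos (by linarith) (by linarith)
      linarith

/-- `u ↦ (al + u)/(c + u)` -/
noncomputable def gg (al c u : ℝ) : ℝ := (al + u) / (c + u)

theorem frac {al c c0 u u0 : ℝ} (hal : 0 < al) (h : c0 ≤ c) (h0 : al ≤ c0) (hu : 0 < u)
    (huu : u ≤ u0) : gg al c u ≤ gg al c0 u0 := by
  unfold gg
  rw [div_le_div_iff₀ (by linarith) (by linarith)]
  have e1 : 0 ≤ al * (c - c0) := mul_nonneg hal.le (by linarith)
  have e2 : 0 ≤ u0 * (c - c0) := mul_nonneg (by linarith) (by linarith)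
  have e3 : 0 ≤ (u0 - u) * (c0 - al) := mul_nonneg (by linarith) (by linarith)
  nlinarith [e1, e2, e3]

theorem eq_gg {al c u s w : ℝ} (hc : 0 < c + u) (h : s * w = al + u) (hw : w = c + u) :
    s = gg al c u := by
  unfold gg
  rw [eq_div_iff hc.ne', ← hw]
  exact h

theorem gg_lt {al A E z u : ℝ} (hal : 0 < al) (hA : 0 ≤ A) (hE : 0 < E) (hz : 0 < z)
    (hzz : z * (A + (E + 1) * z) = al + z) (hu : z < u) : gg al (A + E * z) u < u := by
  have hEz : 0 < E * z := mul_pos hE hz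
  unfold gg
  rw [div_lt_iff₀ (by linarith)]
  have hk : 0 < A + (E + 1) * z - 1 := by
    have h1 : z * (A + (E + 1) * z - 1) = al := by linarith
    by_contra hc
    push Not at hc
    have : z * (A + (E + 1) * z - 1) ≤ 0 := mul_nonpos_of_nonneg_of_nonpos hz.le hc
    linarith
  have h2 : 0 < (u - z) * (u + (A + (E + 1) * z - 1)) := mul_pos (by linarith) (by linarith)
  nlinarith [h2, hzz]

theorem lt_gg {al A E z u : ℝ} (hal : 0 < al) (hA : 0 ≤ A) (hE : 0 < E) (hz : 0 < z)
    (hzz : z * (A + (E + 1) * z) = al + z) (hu0 : 0 < u) (hu : u < z) :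
    u < gg al (A + E * z) u := by
  have hEz : 0 < E * z := mul_pos hE hz
  unfold gg
  rw [lt_div_iff₀ (by linarith)]
  have hk : 0 < A + (E + 1) * z - 1 := by
    have h1 : z * (A + (E + 1) * z - 1) = al := by linarith
    by_contra hc
    push Not at hc
    have : z * (A + (E + 1) * z - 1) ≤ 0 := mul_nonpos_of_nonneg_of_nonpos hz.le hc
    linarith
  have h2 : 0 < (z - u) * (u + (A + (E + 1) * z - 1)) := mul_pos (by linarith) (by linarith)
  nlinarith [h2, hzz]

theorem gg_z {al A E z : ℝ} (hA : 0 ≤ A) (hE : 0 < E) (hz : 0 < z)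
    (hzz : z * (A + (E + 1) * z) = al + z) : gg al (A + E * z) z = z := by
  have hEz : 0 < E * z := mul_pos hE hz
  unfold gg
  rw [div_eq_iff (by linarith)]
  linarith

/-- the inequality at the limit superior -/
theorem up_side {al A B D z I S y0 y1 y2 y3 y4 : ℝ} (hal : 0 < al) (hA : 0 ≤ A) (hB : 0 ≤ B)
    (hD : 0 < D) (hz : 0 < z) (hzz : z * (A + (B + D + 1) * z) = al + z) (hI : 0 < I)
    (hIz : I < z) (hzS : z < S) (hk : al ≤ A + (B + D) * I)
    (h0 : I ≤ y0 ∧ y0 ≤ S) (h2 : I ≤ y2 ∧ y2 ≤ S)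
    (h3 : I ≤ y3 ∧ y3 ≤ S) (h4 : I ≤ y4 ∧ y4 ≤ S) (h1 : I ≤ y1 ∧ y1 ≤ S)
    (e3 : y3 * (A + B * y2 + y1 + D * y0) = al + y1)
    (e5 : S * (A + B * y4 + y3 + D * y2) = al + y3)
    (m1 : ¬ (z < y1 ∧ y2 < z ∧ z < y3)) (m3 : ¬ (z < y3 ∧ y4 < z ∧ z < S)) :
    S ≤ gg al (A + (B + D) * I) (gg al (A + (B + D) * I) z) := by
  have hE : 0 < B + D := by linarith
  have hkz : A + (B + D) * I ≤ A + (B + D) * z := by
    have := mul_le_mul_of_nonneg_left hIz.le hE.le
    linarith
  have b2 : B * I ≤ B * y2 := mul_le_mul_of_nonneg_left h2.1 hB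
  have b4 : B * I ≤ B * y4 := mul_le_mul_of_nonneg_left h4.1 hB
  have d0 : D * I ≤ D * y0 := mul_le_mul_of_nonneg_left h0.1 hD.le
  have d2 : D * I ≤ D * y2 := mul_le_mul_of_nonneg_left h2.1 hD.le
  have BI : 0 ≤ B * I := mul_nonneg hB hI.le
  have DI : 0 < D * I := mul_pos hD hI
  have f3 : y3 = gg al (A + B * y2 + D * y0) y1 :=
    eq_gg (by linarith [h1.1]) e3 (by ring)
  have f5 : S = gg al (A + B * y4 + D * y2) y3 :=
    eq_gg (by linarith [h3.1]) e5 (by ring)
  have claim : y3 ≤ gg al (A + (B + D) * I) z := by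
    rcases le_or_gt y3 z with hy | hy
    · have g1 := frac hal hkz hk hz le_rfl
      rw [gg_z hA hE hz hzz] at g1
      linarith
    · have hy4 : z ≤ y4 := by
        by_contra hc
        push Not at hc
        exact m3 ⟨hy, hc, hzS⟩
      have hy1 : y1 ≤ z := by
        by_contra hc
        push Not at hc
        have hy2 : z ≤ y2 := by
          by_contra hc2
          push Not at hc2
          exact m1 ⟨hc, hc2, hy⟩
        have c1 : A + (B + D) * z ≤ A + B * y4 + D * y2 := by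
          have a1 := mul_le_mul_of_nonneg_left hy4 hB
          have a2 := mul_le_mul_of_nonneg_left hy2 hD.le
          linarith
        have g1 := frac hal c1 (hk.trans hkz) (by linarith [h3.1] : 0 < y3) h3.2
        have g2 := gg_lt hal hA hE hz hzz hzS
        rw [← f5] at g1
        linarith
      rw [f3]
      exact frac hal (by linarith) hk (by linarith [h1.1]) hy1
  rw [f5]
  exact frac hal (by linarith) hk (by linarith [h3.1]) claim

/-- the inequality at the limit inferior -/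
theorem lo_side {al A B D z I S y0 y1 y2 y3 y4 : ℝ} (hal : 0 < al) (hA : 0 ≤ A) (hB : 0 ≤ B)
    (hD : 0 < D) (hz : 0 < z) (hzz : z * (A + (B + D + 1) * z) = al + z) (hI : 0 < I)
    (hIz : I < z) (hzS : z < S) (hk : al ≤ A + (B + D) * I)
    (h0 : I ≤ y0 ∧ y0 ≤ S) (h2 : I ≤ y2 ∧ y2 ≤ S)
    (h3 : I ≤ y3 ∧ y3 ≤ S) (h4 : I ≤ y4 ∧ y4 ≤ S) (h1 : I ≤ y1 ∧ y1 ≤ S)
    (e3 : y3 * (A + B * y2 + y1 + D * y0) = al + y1)
    (e5 : I * (A + B * y4 + y3 + D * y2) = al + y3)
    (m2 : ¬ (y1 < z ∧ z < y2 ∧ y3 < z)) (m4 : ¬ (y3 < z ∧ z < y4 ∧ I < z)) :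
    gg al (A + (B + D) * S) (gg al (A + (B + D) * S) z) ≤ I := by
  have hE : 0 < B + D := by linarith
  have hkz : A + (B + D) * I ≤ A + (B + D) * z := by
    have := mul_le_mul_of_nonneg_left hIz.le hE.le
    linarith
  have hzk : A + (B + D) * z ≤ A + (B + D) * S := by
    have := mul_le_mul_of_nonneg_left hzS.le hE.le
    linarith
  have b2 : B * y2 ≤ B * S := mul_le_mul_of_nonneg_left h2.2 hB
  have b4 : B * y4 ≤ B * S := mul_le_mul_of_nonneg_left h4.2 hB
  have d0 : D * y0 ≤ D * S := mul_le_mul_of_nonneg_left h0.2 hD.le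
  have d2 : D * y2 ≤ D * S := mul_le_mul_of_nonneg_left h2.2 hD.le
  have b2' : B * I ≤ B * y2 := mul_le_mul_of_nonneg_left h2.1 hB
  have b4' : B * I ≤ B * y4 := mul_le_mul_of_nonneg_left h4.1 hB
  have d0' : D * I ≤ D * y0 := mul_le_mul_of_nonneg_left h0.1 hD.le
  have d2' : D * I ≤ D * y2 := mul_le_mul_of_nonneg_left h2.1 hD.le
  have BI : 0 ≤ B * I := mul_nonneg hB hI.le
  have DI : 0 < D * I := mul_pos hD hI
  have f3 : y3 = gg al (A + B * y2 + D * y0) y1 :=
    eq_gg (by linarith [h1.1]) e3 (by ring)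
  have f5 : I = gg al (A + B * y4 + D * y2) y3 :=
    eq_gg (by linarith [h3.1]) e5 (by ring)
  have hS : 0 < S := by linarith
  have ES : 0 < (B + D) * S := mul_pos hE hS
  have claim : gg al (A + (B + D) * S) z ≤ y3 := by
    rcases le_or_gt z y3 with hy | hy
    · have g1 := frac hal hzk (hk.trans hkz) hz le_rfl
      rw [gg_z hA hE hz hzz] at g1
      linarith
    · have hy4 : y4 ≤ z := by
        by_contra hc
        push Not at hc
        exact m4 ⟨hy, hc, hIz⟩
      have hy1 : z ≤ y1 := by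
        by_contra hc
        push Not at hc
        have hy2 : y2 ≤ z := by
          by_contra hc2
          push Not at hc2
          exact m2 ⟨hc, hc2, hy⟩
        have c1 : A + B * y4 + D * y2 ≤ A + (B + D) * z := by
          have a1 := mul_le_mul_of_nonneg_left hy4 hB
          have a2 := mul_le_mul_of_nonneg_left hy2 hD.le
          linarith
        have g1 := frac hal c1 (by linarith) hI h3.1
        have g2 := lt_gg hal hA hE hz hzz hI hIz
        rw [← f5] at g1
        linarith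
      rw [f3]
      exact frac hal (by linarith) (by linarith) hz hy1
  have hp : 0 < gg al (A + (B + D) * S) z := by
    unfold gg
    positivity
  have g3 := frac hal (by linarith : A + B * y4 + D * y2 ≤ A + (B + D) * S) (by linarith) hp claim
  rw [← f5] at g3
  exact g3

/-- **NAB** -/
theorem t_NAB (h : S_NALG) : S_NAB := by
  intro al A B D z x hal hA hB hD hx hz hzz hq hn1 hn2
  have hE : 0 < B + D := by linarith
  obtain ⟨L, K, hL, hb⟩ := bounds hal hA hB hD hx
  obtain ⟨y, hy⟩ : ∃ y : ℕ → ℝ, y = fun n => x (n + 3) := ⟨_, rfl⟩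
  have hyb : ∀ n, y n ∈ Set.Icc L K := by
    intro n
    rw [hy]
    exact hb n
  have hstep : ∀ n, y (n + 3) * (A + B * y (n + 2) + y (n + 1) + D * y n) = al + y (n + 1) := by
    intro n
    rw [hy]
    show x (n + 3 + 3) * (A + B * x (n + 3 + 2) + x (n + 3 + 1) + D * x (n + 3)) =
      al + x (n + 3 + 1)
    rw [hx.step (n + 3), div_mul_cancel₀ _ (hx.den (n + 3)).ne']
  have n1 : ∀ n, ¬ (z < y n ∧ y (n + 1) < z ∧ z < y (n + 2)) := by
    intro n
    rw [hy]
    exact hn1 (n + 3)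
  have n2 : ∀ n, ¬ (y n < z ∧ z < y (n + 1) ∧ y (n + 2) < z) := by
    intro n
    rw [hy]
    exact hn2 (n + 3)
  have hbU : atTop.IsBoundedUnder (· ≤ ·) y := isBoundedUnder_of ⟨K, fun n => (hyb n).2⟩
  have hbL : atTop.IsBoundedUnder (· ≥ ·) y := isBoundedUnder_of ⟨L, fun n => (hyb n).1⟩
  obtain ⟨S, hS⟩ : ∃ S, S = limsup y atTop := ⟨_, rfl⟩
  obtain ⟨I, hI⟩ : ∃ I, I = liminf y atTop := ⟨_, rfl⟩
  have hup : ∀ ε > 0, ∃ N, ∀ n ≥ N, y n < S + ε := by
    intro ε hε
    exact eventually_atTop.1 (eventually_lt_of_limsup_lt (by rw [← hS]; linarith) hbU)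
  have hlo : ∀ ε > 0, ∃ N, ∀ n ≥ N, I - ε < y n := by
    intro ε hε
    exact eventually_atTop.1 (eventually_lt_of_lt_liminf (by rw [← hI]; linarith) hbL)
  have hcS : ∀ ε > 0, ∀ N, ∃ n ≥ N, |y n - S| < ε := by
    intro ε hε N
    obtain ⟨N', hN'⟩ := hup ε hε
    have hf : ∃ᶠ n in atTop, S - ε < y n :=
      frequently_lt_of_lt_limsup hbL.isCoboundedUnder_le (by rw [← hS]; linarith)
    obtain ⟨n, hn, h1⟩ := frequently_atTop.1 hf (max N N')
    refine ⟨n, (le_max_left _ _).trans hn, ?_⟩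
    have h2 := hN' n ((le_max_right _ _).trans hn)
    rw [abs_lt]
    constructor <;> linarith
  have hcI : ∀ ε > 0, ∀ N, ∃ n ≥ N, |y n - I| < ε := by
    intro ε hε N
    obtain ⟨N', hN'⟩ := hlo ε hε
    have hf : ∃ᶠ n in atTop, y n < I + ε :=
      frequently_lt_of_liminf_lt hbU.isCoboundedUnder_ge (by rw [← hI]; linarith)
    obtain ⟨n, hn, h1⟩ := frequently_atTop.1 hf (max N N')
    refine ⟨n, (le_max_left _ _).trans hn, ?_⟩
    have h2 := hN' n ((le_max_right _ _).trans hn)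
    rw [abs_lt]
    constructor <;> linarith
  have hIL : L ≤ I := by
    rw [hI]
    exact le_liminf_of_le hbU.isCoboundedUnder_ge (Eventually.of_forall fun n => (hyb n).1)
  have hI0 : 0 < I := hL.trans_le hIL
  have hIS : I ≤ S := by
    rw [hI, hS]
    exact liminf_le_limsup hbU hbL
  obtain ⟨y0, y1, y2, y3, y4, h0, h1, h2, h3, h4, e3, e5, m1, -, m3, -⟩ :=
    orbit hyb hstep n1 n2 hup hlo hcS
  obtain ⟨w0, w1, w2, w3, w4, k0, k1, k2, k3, k4, f3, f5, -, m2, -, m4⟩ :=
    orbit hyb hstep n1 n2 hup hlo hcI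
  have hIS' : I = S := by
    by_contra hne
    have hlt : I < S := lt_of_le_of_ne hIS hne
    have hk : al ≤ A + (B + D) * I := alg2 hA hB hD hI0 hlt h2 h3 h4 k2 k3 k4 e5 f5
    have hS0 : 0 < S := hI0.trans hlt
    have BI : 0 ≤ B * I := mul_nonneg hB hI0.le
    have DI : 0 < D * I := mul_pos hD hI0
    have hIz : I < z := by
      by_contra hc
      push Not at hc
      have b4 : B * I ≤ B * y4 := mul_le_mul_of_nonneg_left h4.1 hB
      have d2 : D * I ≤ D * y2 := mul_le_mul_of_nonneg_left h2.1 hD.le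
      have g5 : S = gg al (A + B * y4 + D * y2) y3 :=
        eq_gg (by linarith [h3.1]) e5 (by ring)
      have g1 : S ≤ gg al (A + (B + D) * I) S := by
        conv_lhs => rw [g5]
        exact frac hal (by linarith) hk (by linarith [h3.1]) h3.2
      have g2 : gg al (A + (B + D) * I) S ≤ gg al (A + (B + D) * z) S := by
        unfold gg
        have hzI : (B + D) * z ≤ (B + D) * I := mul_le_mul_of_nonneg_left hc hE.le
        have hEz : 0 < (B + D) * z := mul_pos hE hz
        exact div_le_div_of_nonneg_left (by linarith) (by linarith) (by linarith)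
      have g3 := gg_lt hal hA hE hz hzz (lt_of_le_of_lt hc hlt)
      linarith
    have hzS : z < S := by
      by_contra hc
      push Not at hc
      have b4 : B * w4 ≤ B * S := mul_le_mul_of_nonneg_left k4.2 hB
      have d2 : D * w2 ≤ D * S := mul_le_mul_of_nonneg_left k2.2 hD.le
      have b4' : B * I ≤ B * w4 := mul_le_mul_of_nonneg_left k4.1 hB
      have d2' : D * I ≤ D * w2 := mul_le_mul_of_nonneg_left k2.1 hD.le
      have g5 : I = gg al (A + B * w4 + D * w2) w3 :=
        eq_gg (by linarith [k3.1]) f5 (by ring)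
      have g1 : gg al (A + (B + D) * S) I ≤ I := by
        conv_rhs => rw [g5]
        exact frac hal (by linarith) (by linarith) hI0 k3.1
      have g2 : gg al (A + (B + D) * z) I ≤ gg al (A + (B + D) * S) I := by
        unfold gg
        have hzI : (B + D) * S ≤ (B + D) * z := mul_le_mul_of_nonneg_left hc hE.le
        have hEz : 0 < (B + D) * S := mul_pos hE hS0
        exact div_le_div_of_nonneg_left (by linarith) (by linarith) (by linarith)
      have g3 := lt_gg hal hA hE hz hzz hI0 hIz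
      linarith
    have up := up_side hal hA hB hD hz hzz hI0 hIz hzS hk h0 h2 h3 h4 h1 e3 e5 m1 m3
    have lo := lo_side hal hA hB hD hz hzz hI0 hIz hzS hk k0 k2 k3 k4 k1 f3 f5 m2 m4
    refine h al A (B + D) z S I hal hA hE hz hzz hq hI0 hlt ?_ ?_
    · have hc0 : 0 < A + (B + D) * I := by linarith
      set c := A + (B + D) * I with hcd
      have hcz : 0 < c + z := by linarith
      have hp : gg al c z * (c + z) = al + z := by
        unfold gg
        exact div_mul_cancel₀ _ hcz.ne'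
      have hp0 : 0 < gg al c z := by unfold gg; positivity
      set p := gg al c z with hpd
      have hu : S * (c + p) ≤ al + p := by
        unfold gg at up
        rwa [le_div_iff₀ (by linarith)] at up
      have h7 := mul_le_mul_of_nonneg_right hu hcz.le
      have e7 : S * (c * (c + z) + al + z) = S * (c + p) * (c + z) := by
        linear_combination (-S) * hp
      have e8 : (al + p) * (c + z) = al * (c + z) + al + z := by
        linear_combination hp
      rw [e7, ← e8]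
      exact h7
    · have hc0 : 0 < A + (B + D) * S := by
        have := mul_pos hE hS0
        linarith
      set c := A + (B + D) * S with hcd
      have hcz : 0 < c + z := by linarith
      have hp : gg al c z * (c + z) = al + z := by
        unfold gg
        exact div_mul_cancel₀ _ hcz.ne'
      have hp0 : 0 < gg al c z := by unfold gg; positivity
      set p := gg al c z with hpd
      have hu : al + p ≤ I * (c + p) := by
        unfold gg at lo
        rwa [div_le_iff₀ (by linarith)] at lo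
      have h7 := mul_le_mul_of_nonneg_right hu hcz.le
      have e7 : I * (c * (c + z) + al + z) = I * (c + p) * (c + z) := by
        linear_combination (-I) * hp
      have e8 : (al + p) * (c + z) = al * (c + z) + al + z := by
        linear_combination hp
      rw [e7, ← e8]
      exact h7
  have hSz : S = z := by
    have a4 : y4 = S := le_antisymm h4.2 (by rw [← hIS']; exact h4.1)
    have a3 : y3 = S := le_antisymm h3.2 (by rw [← hIS']; exact h3.1)
    have a2 : y2 = S := le_antisymm h2.2 (by rw [← hIS']; exact h2.1)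
    rw [a4, a3, a2] at e5
    have hS0 : 0 < S := hI0.trans_le hIS
    have hk : 0 < A + (B + D + 1) * z - 1 := by
      have h1 : z * (A + (B + D + 1) * z - 1) = al := by linarith
      by_contra hc
      push Not at hc
      have : z * (A + (B + D + 1) * z - 1) ≤ 0 := mul_nonpos_of_nonneg_of_nonpos hz.le hc
      linarith
    have hk2 : 0 < (B + D + 1) * S := by positivity
    have h9 : (S - z) * ((B + D + 1) * S + (A + (B + D + 1) * z - 1)) = 0 := by
      linear_combination e5 - hzz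
    rcases mul_eq_zero.1 h9 with h10 | h10
    · linarith
    · linarith
  have hyt : Tendsto y atTop (𝓝 z) := by
    rw [← hSz]
    exact tendsto_of_liminf_eq_limsup (by rw [← hI, hIS']) hS.symm hbU hbL
  rw [hy] at hyt
  exact (tendsto_add_atTop_iff_nat 3).1 hyt

end Pool.Agent.E8helper40.RR
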